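import Pool.Agent.U730.TL.H

/-!
# MP_9adac4_al, Q2: a thin decomposition without graded subalgebras isomorphic to `W` or `H`

Let `K` be an algebraically closed field of characteristic two and let `B` be the symplectic form
`B(α, β) = α₀ β₁ + α₁ β₀ + α₂ β₃ + α₃ β₂` on `V = 𝔽_2 ^ 4`. The 15-dimensional Lie algebra
`L = ⊕_{0 ≠ α ∈ V} K e_α` with `[e_α, e_β] = B(α, β) e_{α+β}` is simple, has absolute toral rank `4`,
and the toral elements `t_j = (ad e_α)^2` give a thin decomposition of `L` with weight vectors `e_α`.
No graded subalgebra of dimension seven is perfect, so no graded subalgebra is isomorphic to a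
simple Lie algebra of dimension seven, and in particular none is isomorphic to `W` or to `H`.
-/

set_option autoImplicit false

universe u v

namespace Pool.Agent.Results.MP_9adac4_al.NoSevenDimensional

open scoped TensorProduct

section defs

variable (K : Type*) [Field K] (L : Type*) [LieRing L] [LieAlgebra K L]

/-- The 2-envelope `L_2` of a Lie algebra `L` with trivial centre (for instance a simple one) over a
field of characteristic two: the restricted Lie subalgebra of `gl(L)` generated by `ad L`, that is,
the smallest subspace of `End(L)` which contains all `ad x` and is closed under commutators and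
squares. -/
def twoEnvelope : Submodule K (Module.End K L) :=
  sInf {M | (∀ x : L, LieAlgebra.ad K L x ∈ M) ∧ (∀ f ∈ M, ∀ g ∈ M, f * g - g * f ∈ M) ∧
    ∀ f ∈ M, f * f ∈ M}

/-- A torus of `L_2`: a subspace consisting of commuting semisimple elements. -/
def IsTorus (T : Submodule K (Module.End K L)) : Prop :=
  T ≤ twoEnvelope K L ∧ (∀ f ∈ T, ∀ g ∈ T, f * g = g * f) ∧
    ∀ f ∈ T, f.IsSemisimple

/-- A thin decomposition of `L`: a torus `T` of `L_2` of dimension `n`, the largest dimension of a
torus in `L_2` (the absolute toral rank of `L`), with `T ∩ L = 0`, a basis `t_1, …, t_n` of `T` with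
`t_i ^ [2] = t_i`, and a basis `e_α` of `L`, indexed by the nonzero vectors `α ∈ 𝔽_2 ^ n`, such that
`e_α` is a weight vector with weight `α`, that is `[t_i, e_α] = α_i e_α`. -/
structure ThinDecomposition (n : ℕ) where
  /-- the toral basis of the torus -/
  t : Fin n → Module.End K L
  /-- the weight vectors -/
  e : Module.Basis {α : Fin n → ZMod 2 // α ≠ 0} K L
  linearIndependent : LinearIndependent K t
  isTorus : IsTorus K L (Submodule.span K (Set.range t))
  sq : ∀ i, t i * t i = t i
  disjoint : ∀ x : L, LieAlgebra.ad K L x ∈ Submodule.span K (Set.range t) →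
    LieAlgebra.ad K L x = 0
  toralRank : ∀ T : Submodule K (Module.End K L), IsTorus K L T → Module.finrank K T ≤ n
  weight : ∀ i α, t i (e α) = if α.1 i = 0 then 0 else e α

end defs

section lie

variable {K : Type*} [Field K] [CharP K 2]

open Pool.Agent.U730.TL

theorem env_le {L : Type*} [LieRing L] [LieAlgebra K L] (M : Submodule K (Module.End K L))
    (had : ∀ x : L, LieAlgebra.ad K L x ∈ M) (hsq : ∀ f ∈ M, f * f ∈ M) :
    twoEnvelope K L ≤ M := by
  refine sInf_le ⟨had, ?_, hsq⟩
  intro f hf g hg
  have h1 := hsq _ (M.add_mem hf hg)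
  have h2 := M.sub_mem (M.sub_mem h1 (hsq _ hf)) (hsq _ hg)
  have two0 : (2 : K) = 0 := by exact_mod_cast CharP.cast_eq_zero K 2
  have e : f * g - g * f = (f + g) * (f + g) - f * f - g * g - (2 : K) • (g * f) := by
    rw [two_smul]
    noncomm_ring
  rw [e, two0, zero_smul, sub_zero]
  exact h2

theorem env_G : twoEnvelope K (LK K) ≤ G K := env_le _ ad_mem_G sq_mem_G

theorem tt_mem (j : Fin 4) : (tt j : Module.End K (LK K)) ∈ twoEnvelope K (LK K) := by
  obtain ⟨x, hx⟩ := exists_sq (K := K) j
  rw [← hx]
  refine (Submodule.mem_sInf).2 ?_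
  rintro M ⟨h1, _, h3⟩
  exact h3 _ (h1 x)

theorem isTorus_tt : IsTorus K (LK K) (Submodule.span K (Set.range
    (tt : Fin 4 → Module.End K (LK K)))) := by
  refine ⟨?_, ?_, ?_⟩
  · rw [Submodule.span_le]
    rintro _ ⟨j, rfl⟩
    exact tt_mem j
  · intro f hf g hg
    exact diag_comm f g (diag_of_span f hf) (diag_of_span g hg)
  · intro f hf
    exact diag_semisimple f (diag_of_span f hf)

/-- the thin decomposition -/
noncomputable def thin [IsAlgClosed K] : ThinDecomposition K (LK K) 4 where
  t := tt
  e := eb
  linearIndependent := tt_linInd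
  isTorus := isTorus_tt
  sq := tt_sq
  disjoint := disj
  toralRank := fun T hT => torus_bound T (hT.1.trans env_G) hT.2.1 hT.2.2
  weight := tt_eb

end lie

open Pool.Agent.U730.TL in
/-- Over every algebraically closed field `K` of characteristic two there is a simple Lie algebra
`L` of dimension `15` with a thin decomposition, such that no graded subalgebra of `L` is isomorphic
to `W₀ ⊗ K` for a simple Lie algebra `W₀` of dimension seven over `𝔽_2`; the Zassenhaus algebra `W`
and the Hamiltonian algebra `H` of the problem are such algebras `W₀`. -/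
theorem result (K : Type u) [Field K] [CharP K 2] [IsAlgClosed K] [Algebra (ZMod 2) K] :
    ∃ (L : Type u) (_ : LieRing L) (_ : LieAlgebra K L) (D : ThinDecomposition K L 4),
      LieAlgebra.IsSimple K L ∧ Module.finrank K L = 15 ∧
        ∀ (S : Set {α : Fin 4 → ZMod 2 // α ≠ 0}) (M : LieSubalgebra K L),
          M.toSubmodule = Submodule.span K (D.e '' S) →
            ∀ (W₀ : Type v) [LieRing W₀] [LieAlgebra (ZMod 2) W₀]
              [LieAlgebra.IsSimple (ZMod 2) W₀], Module.finrank (ZMod 2) W₀ = 7 →
                IsEmpty (M ≃ₗ⁅K⁆ (K ⊗[ZMod 2] W₀)) := by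
  refine ⟨LK K, inferInstance, inferInstance, thin, inferInstance, ?_, ?_⟩
  · rw [Module.finrank_eq_card_basis (eb : Module.Basis I K (LK K))]
    decide
  · intro S M hM W₀ _ _ _ h7
    refine ⟨fun e => ?_⟩
    refine no_seven S M hM (perf_equiv K M _ e (perf_tensor (ZMod 2) K W₀
      (perf_simple (ZMod 2) W₀))) ?_
    rw [e.toLinearEquiv.finrank_eq, Module.finrank_baseChange, h7]

end Pool.Agent.Results.MP_9adac4_al.NoSevenDimensional
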